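import Pool.Agent.Helper10.W3.M_Trq
import Pool.Agent.Helper38.CV.M_Far
import Pool.Agent.Helper7.W5.M_DimK
import Pool.Agent.Helper99.W5.M_Split
import Pool.Agent.Helper53.TH.M_DIMKH
import Pool.Agent.Helper76.TK5.M_PLAK
import Pool.Agent.Helper45.TK5.M_EDGK
import Pool.Agent.Helper71.TK5.M_BALK
import Pool.Agent.Helper44.TK5.M_TYPK
import Pool.Agent.Helper56.TK5.M_DIMEK
import Pool.Agent.Helper94.TK5.M_DIMOK
import Pool.Agent.Helper55.TK5.M_E1AK
import Pool.Agent.Helper25.TK5.M_E1BK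
import Pool.Agent.Helper53.TK5.M_O1K
import Pool.Agent.Helper80.TK5.M_UBHK

/-!
# Project TK: the upper bound for the new symbols of level `3 * 5^n` with `W_3 = +1`, assembled
-/

set_option autoImplicit false

namespace Pool.Agent.Helper76.TK5

open Pool.Agent.Helper4.TK

/-- Values on translated paths. -/
theorem edgK : HEdgK := Pool.Agent.Helper45.TK5.hEdgK hPlAK

/-- The upper bound for the levels `3 * 5^n`. -/
theorem ubk5 : UBK 5 ddK5 := by
  have pla := hPlAK
  have typ := Pool.Agent.Helper44.TK5.hTypK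
  have dimKH := Pool.Agent.Helper53.TH.hDimKH Pool.Agent.Helper10.W3.hTrq
  have dimK := Pool.Agent.Helper7.W5.hDimK Pool.Agent.Helper10.W3.hTrq
  have split := Pool.Agent.Helper99.W5.hSplit
  have far := Pool.Agent.Helper38.CV.hFar
  exact Pool.Agent.Helper80.TK5.hUBHK Pool.Agent.Helper71.TK5.hBalK
    (Pool.Agent.Helper55.TK5.hE1AK edgK pla typ)
    (Pool.Agent.Helper25.TK5.hE1BK edgK pla far)
    (Pool.Agent.Helper53.TK5.hO1K edgK pla typ far)
    (Pool.Agent.Helper56.TK5.hDimEK typ dimKH dimK split)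
    (Pool.Agent.Helper94.TK5.hDimOK typ dimKH split)

end Pool.Agent.Helper76.TK5
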