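import Pool.Agent.Helper76.TL.Wo
import Pool.Agent.Helper4.TK.Defs

/-!
# Project TK: transport of integral symbols of level `3 p^n` and operators given by words in the `T_l`, `l ≠ p, 3`

The determinant lemma (`unit_det`) is the one of `Helper76/TL/Wo.lean`.
-/

set_option autoImplicit false

namespace Pool.Agent.Helper76.TK5.Wo

open Pool.Agent.Helper14.CV (Homog EqC act Tl)
open Pool.Agent.Helper28.WK (Tw evw)
open Pool.Agent.Helper4.TK
open Pool.Agent.Helper79.S7 (evc)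
open Pool.Agent.Helper76.TL.Wo (Gi)

/-- All words are words in the `T_l`, `l ≠ p`, `l ≠ 3`. -/
def OkCK (p : ℕ) (C : List (ℤ × List ℕ)) : Prop := ∀ c ∈ C, OkK p c.2

private lemma ppos {p : ℕ} (hp : 0 < p) (r : ℕ) : ((p : ℤ) ^ r) ≠ 0 :=
  pow_ne_zero r (by exact_mod_cast hp.ne')

private lemma p_or {p : ℕ} (hp : 0 < p) (r : ℕ) {x y : ℤ} (h : x ≠ 0 ∨ y ≠ 0) :
    ((p : ℤ) ^ r * x ≠ 0 ∨ y ≠ 0) := by
  rcases h with h0 | h0
  · exact Or.inl (mul_ne_zero (ppos hp r) h0)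
  · exact Or.inr h0

private lemma three_dvd {p : ℕ} (hp3 : ¬ 3 ∣ p) (r : ℕ) {z : ℤ} (h : (3 : ℤ) ∣ (p : ℤ) ^ r * z) :
    (3 : ℤ) ∣ z := by
  rcases Int.prime_three.dvd_mul.1 h with h0 | h0
  · have h1 := Int.prime_three.dvd_of_dvd_pow h0
    exact absurd (by exact_mod_cast h1) hp3
  · exact h0

/-- The transported symbol has level `3 p^(r+s)`. -/
theorem sym_GiK {p : ℕ} (hp : 0 < p) (hp3 : ¬ 3 ∣ p) {r s : ℕ} {G : ℤ → ℤ → ℤ} (h : SymK p r s G) :
    SymK p 0 (r + s) (Gi p r G) := by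
  refine ⟨?_, ?_⟩
  · intro k x y hk hxy
    have e := h.1 k ((p : ℤ) ^ r * x) y hk (p_or hp r hxy)
    have e1 : (p : ℤ) ^ r * (k * x) = k * ((p : ℤ) ^ r * x) := by ring
    simp only [Gi]
    rw [e1, e]
  · intro a b c d hty _ hc
    obtain ⟨c', hc'⟩ := hc
    have hcd : (3 : ℤ) ∣ c → (3 : ℤ) ∣ (p : ℤ) ^ s * c' := by
      intro h2
      rw [hc'] at h2
      exact (three_dvd hp3 _ h2).mul_left _
    have hty' : KTy a ((p : ℤ) ^ r * b) ((p : ℤ) ^ s * c') d := by
      rcases hty with ⟨h1, h2⟩ | ⟨h1, h2, h3, h4⟩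
      · exact Or.inl ⟨by rw [← h1, hc', pow_add]; ring, hcd h2⟩
      · exact Or.inr ⟨by rw [← h1, hc', pow_add]; ring, h2, hcd h3, h4⟩
    obtain ⟨k, hk⟩ := h.2 a ((p : ℤ) ^ r * b) ((p : ℤ) ^ s * c') d hty' (Dvd.intro _ rfl)
      (Dvd.intro _ rfl)
    refine ⟨k, ?_⟩
    intro x y hxy
    have e := hk ((p : ℤ) ^ r * x) y (p_or hp r hxy)
    simp only [act, Gi] at e ⊢
    have e1 : (p : ℤ) ^ r * (a * x + b * y) = a * ((p : ℤ) ^ r * x) + (p : ℤ) ^ r * b * y := by ring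
    have e2 : c * x + d * y = (p : ℤ) ^ s * c' * ((p : ℤ) ^ r * x) + d * y := by
      rw [hc', pow_add]
      ring
    rw [e1, e2]
    exact e

private lemma Tl_Gi (p l r : ℕ) (G : ℤ → ℤ → ℤ) :
    Tl l 1 (Gi p r G) = Gi p r (Tl l ((p : ℤ) ^ r) G) := by
  funext x y
  simp only [Tl, Gi]
  congr 1
  · congr 1
    ring
  · refine Finset.sum_congr rfl ?_
    intro j _
    congr 1
    ring

private lemma homog_Tl {G : ℤ → ℤ → ℤ} (l : ℕ) (hl : 0 < l) (m : ℤ) (h : Homog G) :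
    Homog (Tl l m G) := by
  intro k p q hk hpq
  have hl0 : (l : ℤ) ≠ 0 := by exact_mod_cast hl.ne'
  simp only [Tl]
  congr 1
  · have e := h k (l * p) q hk (by
      rcases hpq with h0 | h0
      · exact Or.inl (mul_ne_zero hl0 h0)
      · exact Or.inr h0)
    rw [← e]
    congr 1
    ring
  · refine Finset.sum_congr rfl ?_
    intro j _
    have e := h k (p + m * j * q) (l * q) hk (by
      by_cases hq : q = 0
      · left
        rcases hpq with h0 | h0
        · rw [hq, mul_zero, add_zero]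
          exact h0
        · exact absurd hq h0
      · exact Or.inr (mul_ne_zero hl0 hq))
    rw [← e]
    congr 1
    · ring
    · ring

private lemma Tw_Gi (p : ℕ) (ls : List ℕ) (r : ℕ) (G : ℤ → ℤ → ℤ) :
    Tw 1 ls (Gi p r G) = Gi p r (Tw ((p : ℤ) ^ r) ls G) := by
  induction ls with
  | nil => rfl
  | cons l ls ih => rw [Tw, Tw, ih, Tl_Gi]

private lemma homog_Tw {p : ℕ} {G : ℤ → ℤ → ℤ} (h : Homog G) (m : ℤ) (ls : List ℕ) (hl : OkK p ls) :
    Homog (Tw m ls G) := by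
  induction ls with
  | nil => exact h
  | cons l ls ih =>
    rw [Tw]
    exact homog_Tl l (hl l List.mem_cons_self).1.pos m
      (ih fun l' hl' => hl l' (List.mem_cons_of_mem _ hl'))

private lemma evw_Gi {p : ℕ} (hp : 0 < p) (r : ℕ) {G : ℤ → ℤ → ℤ} (hG : Homog G) (ls : List ℕ)
    (hl : OkK p ls) : evw 1 ls (Gi p r G) = evw ((p : ℤ) ^ r) ls G := by
  unfold evw
  rw [Tw_Gi]
  have e := homog_Tw hG ((p : ℤ) ^ r) ls hl ((p : ℤ) ^ r) 1 0 (ppos hp r) (Or.inl one_ne_zero)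
  rw [mul_zero] at e
  simp only [Gi]
  rw [mul_zero, e]

/-- Values of integer combinations of words. -/
theorem evc_GiK {p : ℕ} (hp : 0 < p) {r s : ℕ} {G : ℤ → ℤ → ℤ} (hG : SymK p r s G)
    (C : List (ℤ × List ℕ)) (hC : OkCK p C) : evc 1 C (Gi p r G) = evc ((p : ℤ) ^ r) C G := by
  unfold evc
  congr 1
  refine List.map_congr_left fun c hc => ?_
  rw [evw_Gi hp r hG.1 c.2 (hC c hc)]

/-! ### word operators -/

/-- Operators given by the same integer combination of words for all groups. -/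
def WOK (p : ℕ) (A : ∀ (R : Type) [AddCommGroup R], ℤ → (ℤ → ℤ → R) → (ℤ → ℤ → R)) : Prop :=
  ∃ C : List (ℤ × List ℕ), OkCK p C ∧ ∀ (R : Type) [AddCommGroup R] (m : ℤ) (G : ℤ → ℤ → R)
    (x y : ℤ), A R m G x y = (C.map fun c => c.1 • Tw m c.2 G x y).sum

theorem wok_id (p : ℕ) : WOK p (fun _ _ _ G => G) := by
  refine ⟨[(1, [])], ?_, ?_⟩
  · intro c hc l hl
    rw [List.mem_singleton] at hc
    rw [hc] at hl
    exact absurd hl (by simp)
  · intro R _ m G x y
    simp [Tw]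

theorem wok_add {p : ℕ} {A B : ∀ (R : Type) [AddCommGroup R], ℤ → (ℤ → ℤ → R) → (ℤ → ℤ → R)}
    (hA : WOK p A) (hB : WOK p B) : WOK p (fun R _ m G => A R m G + B R m G) := by
  obtain ⟨C, hC, h1⟩ := hA
  obtain ⟨D, hD, h2⟩ := hB
  refine ⟨C ++ D, ?_, ?_⟩
  · intro c hc
    rcases List.mem_append.1 hc with h | h
    · exact hC c h
    · exact hD c h
  · intro R _ m G x y
    rw [List.map_append, List.sum_append, ← h1, ← h2]
    rfl

theorem wok_smul {p : ℕ} (n : ℤ) {A : ∀ (R : Type) [AddCommGroup R], ℤ → (ℤ → ℤ → R) → (ℤ → ℤ → R)}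
    (hA : WOK p A) : WOK p (fun R _ m G => n • A R m G) := by
  obtain ⟨C, hC, h1⟩ := hA
  refine ⟨C.map fun c => (n * c.1, c.2), ?_, ?_⟩
  · intro c hc
    obtain ⟨d, hd, rfl⟩ := List.mem_map.1 hc
    exact hC d hd
  · intro R _ m G x y
    have h := h1 R m G x y
    show n • A R m G x y = _
    rw [h, List.map_map]
    clear h h1 hC
    induction C with
    | nil => simp
    | cons c C ih =>
      rw [List.map_cons, List.map_cons, List.sum_cons, List.sum_cons, smul_add, ih]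
      simp only [Function.comp_apply]
      rw [mul_smul]

theorem wok_neg {p : ℕ} {A : ∀ (R : Type) [AddCommGroup R], ℤ → (ℤ → ℤ → R) → (ℤ → ℤ → R)}
    (hA : WOK p A) : WOK p (fun R _ m G => -A R m G) := by
  have h := wok_smul (-1) hA
  simp only [neg_smul, one_smul] at h
  exact h

theorem wok_sub {p : ℕ} {A B : ∀ (R : Type) [AddCommGroup R], ℤ → (ℤ → ℤ → R) → (ℤ → ℤ → R)}
    (hA : WOK p A) (hB : WOK p B) : WOK p (fun R _ m G => A R m G - B R m G) := by
  have h := wok_add hA (wok_neg hB)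
  simp only [← sub_eq_add_neg] at h
  exact h

theorem wok_Tl {p : ℕ} (l : ℕ) (hl : l.Prime) (hlp : l ≠ p) (hl3 : l ≠ 3)
    {A : ∀ (R : Type) [AddCommGroup R], ℤ → (ℤ → ℤ → R) → (ℤ → ℤ → R)}
    (hA : WOK p A) : WOK p (fun R _ m G => Tl l m (A R m G)) := by
  obtain ⟨C, hC, h1⟩ := hA
  refine ⟨C.map fun c => (c.1, l :: c.2), ?_, ?_⟩
  · intro c hc
    obtain ⟨d, hd, rfl⟩ := List.mem_map.1 hc
    intro l' hl'
    rcases List.mem_cons.1 hl' with h | h
    · rw [h]
      exact ⟨hl, hlp, hl3⟩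
    · exact hC d hd l' h
  · intro R _ m G x y
    rw [List.map_map]
    show A R m G (l * x) y + ∑ j ∈ Finset.range l, A R m G (x + m * j * y) (l * y) = _
    have e : ∀ x y : ℤ, A R m G x y = (C.map fun c => c.1 • Tw m c.2 G x y).sum := h1 R m G
    simp only [e]
    clear e h1 hC
    induction C with
    | nil => simp
    | cons c C ih =>
      simp only [List.map_cons, List.sum_cons, Finset.sum_add_distrib] at ih ⊢
      rw [← ih]
      simp only [Function.comp_apply, Tw, Tl, smul_add, Finset.smul_sum]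
      abel

theorem wok_iter {p : ℕ} {B : ∀ (R : Type) [AddCommGroup R], ℤ → (ℤ → ℤ → R) → (ℤ → ℤ → R)}
    (hB : ∀ A : ∀ (R : Type) [AddCommGroup R], ℤ → (ℤ → ℤ → R) → (ℤ → ℤ → R), WOK p A →
      WOK p (fun R _ m G => B R m (A R m G)))
    {A : ∀ (R : Type) [AddCommGroup R], ℤ → (ℤ → ℤ → R) → (ℤ → ℤ → R)} (hA : WOK p A) (i : ℕ) :
    WOK p (fun R _ m G => (B R m)^[i] (A R m G)) := by
  induction i with
  | zero => exact hA
  | succ i ih =>
    have h := hB _ ih
    simp only [← Function.iterate_succ_apply'] at h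
    exact h

/-- The value `A G ∞ - A G 0` is an integer combination of values at words. -/
theorem wok_ev {p : ℕ} {A : ∀ (R : Type) [AddCommGroup R], ℤ → (ℤ → ℤ → R) → (ℤ → ℤ → R)}
    (hA : WOK p A) : ∃ C : List (ℤ × List ℕ), OkCK p C ∧
    ∀ (R : Type) [AddCommGroup R] (m : ℤ) (G : ℤ → ℤ → R), A R m G 1 0 - A R m G 0 1 = evc m C G := by
  obtain ⟨C, hC, h⟩ := hA
  refine ⟨C, hC, ?_⟩
  intro R _ m G
  unfold evc evw
  have h10 : A R m G 1 0 = _ := h R m G 1 0
  have h01 : A R m G 0 1 = _ := h R m G 0 1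
  rw [h10, h01]
  clear h10 h01 h hC
  induction C with
  | nil => simp
  | cons c C ih =>
    rw [List.map_cons, List.map_cons, List.map_cons, List.sum_cons, List.sum_cons,
      List.sum_cons, ← ih, smul_sub]
    abel

end Pool.Agent.Helper76.TK5.Wo
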