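import Pool.Agent.Helper76.TK5.Wo
import Pool.Agent.Helper4.TK.StD

/-!
# Project TK, module BAS: an integral family of symbols of level `3 * 5^n` with determinant prime to five
-/

set_option autoImplicit false

namespace Pool.Agent.Helper76.TK5

open Pool.Agent.Helper14.CV (Homog EqC act Tl)
open Pool.Agent.Helper28.WK (Tw evw)
open Pool.Agent.Helper4.TK
open Pool.Agent.Helper93.TLE (DDE)
open Pool.Agent.Helper79.S7 (evc)
open Pool.Agent.Helper76.TL.Wo (Gi unit_det)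
open Pool.Agent.Helper76.TK5.Wo

/-- The content of BAS: an integral family with determinant prime to `p`. -/
def BasK (p D : ℕ) (dd : ℕ → ℕ) : Prop := ∀ m : ℕ, 3 ≤ m →
  ∃ (G : Fin (DDE D dd m) → ℤ → ℤ → ℤ) (C : Fin (DDE D dd m) → List (ℤ × List ℕ)),
    (∀ k, SymK p 0 m (G k)) ∧ (∀ l, ∀ c ∈ C l, OkK p c.2) ∧
    ¬ (p : ℤ) ∣ Matrix.det (Matrix.of fun k l => evc 1 (C l) (G k))

namespace BasKM

private lemma wo_l (l : ℕ) (hl : l.Prime) (h5 : l ≠ 5) (h3 : l ≠ 3)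
    {A : ∀ (R : Type) [AddCommGroup R], ℤ → (ℤ → ℤ → R) → (ℤ → ℤ → R)}
    (hA : WOK 5 A) : WOK 5 (fun R _ m G => Tl l m (A R m G)) := wok_Tl l hl h5 h3 hA

private lemma wo_U {A : ∀ (R : Type) [AddCommGroup R], ℤ → (ℤ → ℤ → R) → (ℤ → ℤ → R)}
    (hA : WOK 5 A) : WOK 5 (fun R _ m G => UoK m (A R m G)) := by
  have h11 := wo_l 11 (by norm_num) (by norm_num) (by norm_num) hA
  have h19 := wo_l 19 (by norm_num) (by norm_num) (by norm_num) hA
  exact wok_add (wok_add (wok_smul 3 h11) (wok_smul 2 h19)) (wok_smul 4 hA)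

private lemma wo_V {A : ∀ (R : Type) [AddCommGroup R], ℤ → (ℤ → ℤ → R) → (ℤ → ℤ → R)}
    (hA : WOK 5 A) : WOK 5 (fun R _ m G => VoK m (A R m G)) := by
  have h7 := wo_l 7 (by norm_num) (by norm_num) (by norm_num) hA
  have h13 := wo_l 13 (by norm_num) (by norm_num) (by norm_num) hA
  have h19 := wo_l 19 (by norm_num) (by norm_num) (by norm_num) hA
  have h29 := wo_l 29 (by norm_num) (by norm_num) (by norm_num) hA
  have h27 := wo_l 2 (by norm_num) (by norm_num) (by norm_num) h7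
  have h77 := wo_l 7 (by norm_num) (by norm_num) (by norm_num) h7
  have h213 := wo_l 2 (by norm_num) (by norm_num) (by norm_num) h13
  exact wok_add (wok_add (wok_add (wok_add (wok_add (wok_smul 2 h27) (wok_smul 2 h77))
    (wok_smul 3 h213)) (wok_smul 3 h19)) (wok_smul 3 h29)) (wok_smul 3 hA)

private lemma wo_P {A : ∀ (R : Type) [AddCommGroup R], ℤ → (ℤ → ℤ → R) → (ℤ → ℤ → R)}
    (hA : WOK 5 A) (c : ℕ) : WOK 5 (fun R _ m G => PoK m c (A R m G)) := by
  have h2 := wo_l 2 (by norm_num) (by norm_num) (by norm_num) hA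
  have h22 := wo_l 2 (by norm_num) (by norm_num) (by norm_num) h2
  have h11 := wo_l 11 (by norm_num) (by norm_num) (by norm_num) hA
  have h13 := wo_l 13 (by norm_num) (by norm_num) (by norm_num) hA
  unfold PoK
  split_ifs with h0 h1 h3
  · exact wok_add (wok_add h22 (wok_smul 3 h2)) (wok_smul 2 hA)
  · exact wok_add (wok_add (wok_add (wok_smul 4 h11) (wok_smul 4 h13)) (wok_smul 3 h2)) (wok_smul 2 hA)
  · exact hA
  · exact wok_sub h2 (wok_smul 3 hA)

end BasKM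

open BasKM in
/-- The value `evK` is an integer combination of values at words, the same for all groups. -/
theorem evK_evc (c i j : ℕ) : ∃ C : List (ℤ × List ℕ), OkCK 5 C ∧
    ∀ (R : Type) [AddCommGroup R] (m : ℤ) (G : ℤ → ℤ → R), evK m G c i j = evc m C G :=
  wok_ev (wo_P (wok_iter (B := fun R _ m => UoK m) (fun _ h => wo_U h)
    (wok_iter (B := fun R _ m => VoK m) (fun _ h => wo_V h) (wok_id 5) j) i) c)

namespace BasKM

private theorem core (r s N n : ℕ) (I : Finset (ℕ × ℕ × ℕ))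
    (hI : ∀ t ∈ I, t.1 ≤ 3 ∧ aK t.1 + t.2.1 + 5 * t.2.2 < 5 ^ r ∧
      bK t.1 + t.2.1 + t.2.2 < 5 ^ s) (hN : I.card = N)
    (hn : r + (s + 1) = n) (hTri : TTri) (hLif : TLif) :
    ∃ (G : Fin N → ℤ → ℤ → ℤ) (C : Fin N → List (ℤ × List ℕ)), (∀ k, SymK 5 0 n (G k)) ∧
      (∀ l, OkCK 5 (C l)) ∧ ¬ (5 : ℤ) ∣ Matrix.det (Matrix.of fun k l => evc 1 (C l) (G k)) := by
  choose Cw hCw hCe using evK_evc
  have h1 : ∀ t : I, ∃ G : ℤ → ℤ → ℤ, SymK 5 0 n G ∧
      (((evc 1 (Cw t.1.1 t.1.2.1 t.1.2.2) G : ℤ) : ZMod 5) ≠ 0) ∧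
      ∀ c i j, c ≤ 3 → (((evc 1 (Cw c i j) G : ℤ) : ZMod 5) ≠ 0 →
        (aK c + bK c + 2 * i + 6 * j < aK t.1.1 + bK t.1.1 + 2 * t.1.2.1 + 6 * t.1.2.2 ∨
        (aK c + bK c + 2 * i + 6 * j = aK t.1.1 + bK t.1.1 + 2 * t.1.2.1 + 6 * t.1.2.2 ∧
          (c < t.1.1 ∨ (c = t.1.1 ∧ i + j ≤ t.1.2.1 + t.1.2.2))))) := by
    intro t
    obtain ⟨hc, ha, hb⟩ := hI t.1 t.2
    obtain ⟨g, hg, hg1, hg2⟩ := hTri r s t.1.1 t.1.2.1 t.1.2.2 hc ha hb
    obtain ⟨G, hG, hGe⟩ := hLif r s g hg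
    have hs := sym_GiK (p := 5) (by norm_num) (by norm_num) hG
    rw [hn] at hs
    have hev : ∀ c i j, ((evc 1 (Cw c i j) (Gi 5 r G) : ℤ) : ZMod 5) = evK (5 ^ r) g c i j := by
      intro c i j
      rw [evc_GiK (p := 5) (by norm_num) hG _ (hCw _ _ _), ← hCe]
      exact_mod_cast hGe c i j
    refine ⟨Gi 5 r G, hs, ?_, ?_⟩
    · rw [hev]
      exact hg1
    · intro c i j hc1 hij
      apply hg2 c i j hc1
      rw [hev] at hij
      exact hij
  choose G hS hd hM using h1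
  let M : Matrix I I ℤ := Matrix.of fun t u => evc 1 (Cw u.1.1 u.1.2.1 u.1.2.2) (G t)
  have hdet : ((M.det : ℤ) : ZMod 5) ≠ 0 := by
    refine unit_det Nat.prime_five
      (fun t : I => 4 * (aK t.1.1 + bK t.1.1 + 2 * t.1.2.1 + 6 * t.1.2.2) + t.1.1)
      (fun t : I => t.1.2.1 + t.1.2.2) (fun t : I => t.1.1) ?_ M
      (fun t => hd t) (fun t u htu => ?_)
    · intro t u h2 h3 h4
      rw [h4] at h2
      apply Subtype.ext
      apply Prod.ext
      · exact h4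
      · apply Prod.ext
        · omega
        · omega
    · have h5 := hM t _ _ _ (hI u.1 u.2).1 htu
      have h6 := (hI u.1 u.2).1
      have h7 := (hI t.1 t.2).1
      rcases h5 with h8 | ⟨h8, h9 | ⟨h9, h10⟩⟩
      · left
        omega
      · left
        omega
      · right
        exact ⟨by rw [h8, h9], h9, h10⟩
  let e : Fin N ≃ I := (I.equivFinOfCardEq hN).symm
  refine ⟨fun k => G (e k), fun l => Cw (e l).1.1 (e l).1.2.1 (e l).1.2.2, fun k => hS (e k),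
    fun l => hCw _ _ _, ?_⟩
  have h2 : (Matrix.of fun k l => evc 1 (Cw (e l).1.1 (e l).1.2.1 (e l).1.2.2) (G (e k))) =
      M.submatrix e e := rfl
  rw [h2, Matrix.det_submatrix_equiv_self]
  intro h3
  exact hdet ((ZMod.intCast_zmod_eq_zero_iff_dvd _ 5).2 (by exact_mod_cast h3))

end BasKM

open BasKM in
/-- BAS for the levels `3 * 5^n`. -/
theorem hBasK5 : TTri → TLif → TCnt → BasK 5 3 ddK5 := by
  intro hTri hLif hCnt n hn
  rcases Nat.even_or_odd' n with ⟨k, hk | hk⟩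
  · subst hk
    refine core k (k - 1) _ _ _ ?_ (hCnt.1 k (by omega)) (by omega) hTri hLif
    intro t ht
    have h := Finset.mem_filter.1 ht
    have h0 := Finset.mem_range.1 (Finset.mem_product.1 h.1).1
    exact ⟨by omega, h.2.1, h.2.2⟩
  · subst hk
    refine core k k _ _ _ ?_ (hCnt.2 k (by omega)) (by omega) hTri hLif
    intro t ht
    have h := Finset.mem_filter.1 ht
    have h0 := Finset.mem_range.1 (Finset.mem_product.1 h.1).1
    exact ⟨by omega, h.2.1, h.2.2⟩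

end Pool.Agent.Helper76.TK5
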