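import Pool.Agent.Helper4.TK.Defs
import Pool.Agent.Helper76.TH.StC

/-!
# Project TK (level `3 * 5^n`, `W_3 = +1`): upper bound for new symbols

The shape of `Helper76/TH/StC.lean` (project TH, levels `2 * 5^n`, all modules closed: `Pool/Agent/Helper*/TH/M_*H.lean`; see also `Helper76/TH7/StC7.lean`, `Helper76/TH3/StC3.lean` and their modules) on the same plane (W5: `Pt`, `trp`, `ng`, `dR`, `anti5`, `inv5`, `Kl`, closed theorems SPLIT `Pool.Agent.Helper99.W5.hSplit`, DIMK `Pool.Agent.Helper7.W5.hDimK`; general types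
`TyH` and dimensions `HDimK` of TH, closed: `Pool.Agent.Helper53.TH.hDimKH Pool.Agent.Helper10.W3.hTrq`), with the group of the matrices `(a 5^μ b; 5c d)` of type `KTy` (`Helper4/TK/Defs.lean`: determinant one and `3 ∣ c`, or determinant three and `3 ∣ a, c, d`). Standard matrices have a lower left entry divisible by `3`. RULE FOR REFLECTIONS.
`val π = G(gu) - G(gv)` for the path `π` from `v` to `u`, `F_π(p)` the value at the coordinates `p` of `g`. `b = (0 1; 3 0)` (even exponents, `μ = 1`), `b = (0 1; 15 0)` (odd exponents, `μ = 0`): if `g` has coordinates `p = (x, y)`, then `b⁻¹ g b` has coordinates `swK p = (y/3, 3x)`, `* g *` has `ng p`, `g M` has `trp μ a b c d p` for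
`M = (a 5^μ b; 5c d)` of type `KTy`. `G∘* ≈ G`, `G∘b ≈ -G`. So for `ρ = b M` (up to a scalar): the value of `G` at the path `g ρ π` is `-F_π(trp M (swK p))`; for `ρ = * M`: `F_π(trp M (ng p))`; for `ρ = b * M`: `-F_π(trp M (ng (swK p)))`. The relations of TYPK and the dimensions `12`, `220` (odd, `m = 1, 2`), `40`, `1000` (even,
`m = 1, 2`) were checked by machine.
-/

set_option autoImplicit false

namespace Pool.Agent.Helper76.TK5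

open Pool.Agent.Helper14.CV (Homog EqC act StFar)
open Pool.Agent.Helper14.W5
open Pool.Agent.Helper76.TH (TyH HDimK)
open Pool.Agent.Helper4.TK

/-- The matrix `(a, 5^μ b; 5 c, d)` is of type `KTy` and has plane coordinates `(x, y)`. -/
def PlK (μ : ℕ) {q q' : ℕ} (a b c d : ℤ) (x : ZMod q) (y : ZMod q') : Prop :=
  KTy a (5 ^ μ * b) (5 * c) d ∧ (b : ZMod q) = x * a ∧ (c : ZMod q') = y * d

/-- The entry `Y` (divisible by `3`) of the standard matrix `(1, 5^μ X; 5 Y, 1 + 5^(μ+1) X Y)`, `X = x.val`. -/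
noncomputable def rYK (μ : ℕ) {q q' : ℕ} (x : ZMod q) (y : ZMod q') : ℤ :=
  3 * ((y * (3 * (1 - 5 ^ (μ + 1) * ((x.val : ℕ) : ZMod q') * y))⁻¹).val : ℤ)

/-- The value of the symbol of `G` on the path from `g v` to `g u`, `g` the standard matrix with plane coordinates `(x, y)`. -/
noncomputable def edgeK {R : Type} [AddCommGroup R] (μ : ℕ) {q q' : ℕ} (u1 u2 v1 v2 : ℤ)
    (G : ℤ → ℤ → R) (x : ZMod q) (y : ZMod q') : R :=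
  G (u1 + 5 ^ μ * (x.val : ℤ) * u2) (5 * rYK μ x y * u1 + (1 + 5 ^ (μ + 1) * (x.val : ℤ) * rYK μ x y) * u2)
  - G (v1 + 5 ^ μ * (x.val : ℤ) * v2) (5 * rYK μ x y * v1 + (1 + 5 ^ (μ + 1) * (x.val : ℤ) * rYK μ x y) * v2)

/-- PLAK. The standard matrix is of type `KTy` (first case) and has the right coordinates. (`3 (1 - 5^(μ+1) X y)` is a unit of `ZMod (5^s)`.) Model: `Pool/Agent/Helper73/TH/M_PLAH.lean`. -/
def HPlAK : Prop := ∀ (μ r s : ℕ) (x : ZMod (5 ^ r)) (y : ZMod (5 ^ s)),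
  PlK μ 1 (x.val : ℤ) (rYK μ x y) (1 + 5 ^ (μ + 1) * (x.val : ℤ) * rYK μ x y) x y

/-- The content of EDGK. -/
def HEdgK : Prop := ∀ (R : Type) (_ : AddCommGroup R) (μ r s : ℕ) (G : ℤ → ℤ → R),
  SymK 5 (r + μ) (s + 1) G → ∀ (u1 u2 v1 v2 : ℤ), (u1 ≠ 0 ∨ u2 ≠ 0) → (v1 ≠ 0 ∨ v2 ≠ 0) →
  ∀ (x : ZMod (5 ^ r)) (y : ZMod (5 ^ s)) (a b c d : ℤ), PlK μ a b c d x y →
  edgeK μ u1 u2 v1 v2 G x y = G (a * u1 + 5 ^ μ * b * u2) (5 * c * u1 + d * u2) -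
    G (a * v1 + 5 ^ μ * b * v2) (5 * c * v1 + d * v2)

/-- EDGK (from PLAK). Model: `Pool/Agent/Helper9/TH/M_EDGH.lean`. -/
def StHEdgK : Prop := HPlAK → HEdgK

/-- Balanced new symbols, even exponent `n = 2k`. -/
def BalEK (k : ℕ) (G : ℤ → ℤ → ℂ) : Prop :=
  SymK 5 k k G ∧ EqC (∑ i ∈ Finset.range 5, act 1 (i * 5 ^ (k - 1)) 0 1 G) 0 ∧
    EqC (∑ i ∈ Finset.range 5, act 1 0 (3 * i * 5 ^ (k - 1)) 1 G) 0 ∧
    EqC (act 0 (-1) 3 0 G) (-G) ∧ EqC (act (-1) 0 0 1 G) G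

/-- Balanced new symbols, odd exponent `n = 2k+1`. -/
def BalOK (k : ℕ) (G : ℤ → ℤ → ℂ) : Prop :=
  SymK 5 k (k + 1) G ∧ EqC (∑ i ∈ Finset.range 5, act 1 (i * 5 ^ (k - 1)) 0 1 G) 0 ∧
    EqC (∑ i ∈ Finset.range 5, act 1 0 (3 * i * 5 ^ k) 1 G) 0 ∧
    EqC (act 0 (-1) 15 0 G) (-G) ∧ EqC (act (-1) 0 0 1 G) G

/-- BALK. Transport to the balanced form by `D = (1 0; 0 5^k)`. Model: BALH of TH, `Pool/Agent/Helper83/TH/M_BALH.lean`. -/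
def HBalK : Prop := ∀ (k : ℕ) (G : ℤ → ℤ → ℂ), 1 ≤ k →
  (NewSymK 5 (2 * k) G → BalEK k (act 1 0 0 (5 ^ k) G)) ∧
  (NewSymK 5 (2 * k + 1) G → BalOK k (act 1 0 0 (5 ^ k) G)) ∧
  (Homog G → EqC (act 1 0 0 (5 ^ k) G) 0 → EqC G 0)

/-! ### Functions on the plane -/

/-- `(x, y) ↦ (y/3, 3x)`. -/
def swK {m : ℕ} (p : Pt m) : Pt m := (p.2 * (3 : ZMod (5 ^ m))⁻¹, 3 * p.1)

/-- Odd exponent (`μ = 0`): the circle around `1/2`, matrix `(15 -7; 30 -15) = b (2 -1; 15 -7)`. -/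
def cOK {m : ℕ} (p : Pt m) : Pt m := trp 0 2 (-1) 3 (-7) (swK p)

/-- Odd exponent: the rotation of order two which exchanges `∞` and `1/3`, matrix `(5 -2; 15 -5)`, `b * (3 -1; -15 6) = -3 (5 -2; 15 -5)`. -/
def dOK {m : ℕ} (p : Pt m) : Pt m := trp 0 3 (-1) (-3) 6 (ng (swK p))

/-- Even exponent (`μ = 1`): the circle over `[1/3, 1/2]`, matrix `(5 -2; 12 -5)`, `b (12 -5; 15 -6) = 3 (5 -2; 12 -5)`. -/
def c3K {m : ℕ} (p : Pt m) : Pt m := trp 1 12 (-1) 3 (-6) (swK p)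

/-- Even exponent: the circle over `[4/3, 2]`, matrix `(5 -8; 3 -5)`, `b (3 -5; 15 -24) = 3 (5 -8; 3 -5)`. -/
def c1K {m : ℕ} (p : Pt m) : Pt m := trp 1 3 (-1) 3 (-24) (swK p)

/-- Even exponent: the circle around `5/2`, matrix `(15 -37; 6 -15) = b (2 -5; 15 -37)`. -/
def c2K {m : ℕ} (p : Pt m) : Pt m := trp 1 2 (-1) 3 (-37) (swK p)

/-- Even exponent: the rotation of order two which exchanges `1` and `4/3`, matrix `(15 -19; 12 -15)`, `b * (4 -5; -15 19) = -(15 -19; 12 -15)`. -/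
def dMK {m : ℕ} (p : Pt m) : Pt m := trp 1 4 (-1) (-3) 19 (ng (swK p))

/-- Even exponent: the matrix `(33 -20; 15 -9)` of determinant three, which maps `1/2` to `7/3` and `2/3` to `2`. -/
def gaK {m : ℕ} (p : Pt m) : Pt m := trp 1 33 (-4) 3 (-9) p

/-- TYPK. The maps above and their types (`TyH` of TH). Proof as TYPH (`Pool/Agent/Helper42/TH/M_TYPH.lean`): `trp μ M' (trp μ M p) = trp μ (M M') p`, `trp` does not change under scalars prime to `5`, `swK (trp μ a b c d p) = trp μ d (c/3) (3b) a (swK p)` (`3 ∣ c`), `ng (trp μ a b c d p) = trp μ a (-b) (-c) d (ng p)`, `swK (swK p) = p`,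
`ng (swK p) = swK (ng p)`; so all relations are identities of matrices up to a scalar (`gaK (c2K p) = swK (gaK p)`: `(15 -37; 6 -15) (33 -20; 15 -9) = (33 -20; 15 -9) (0 1; 3 0) = (-60 33; -27 15)`; `dOK (swK p) = cOK (dOK p)`: `(0 1; 15 0) (5 -2; 15 -5) = (5 -2; 15 -5) (15 -7; 30 -15)` up to a scalar). Derivatives: `det/a²`, `det/d²` modulo `5`
(and `1/3`, `3` for `swK`); `gaK`: `2`, `3`. -/
def HTypK : Prop := ∀ m : ℕ,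
  (Kl (ng : Pt m → Pt m) swK ∧ TyH 0 (ng : Pt m → Pt m) ∧ TyH 1 (swK : Pt m → Pt m) ∧ TyH 1 (fun p : Pt m => ng (swK p))) ∧
  (Kl (dR 0 : Pt m → Pt m) cOK ∧ TyH 0 (dR 0 : Pt m → Pt m) ∧ TyH 1 (cOK : Pt m → Pt m) ∧ TyH 1 (fun p : Pt m => dR 0 (cOK p))) ∧
  ((∀ p : Pt m, dOK (dOK p) = p) ∧ TyH 1 (dOK : Pt m → Pt m) ∧ (∀ p : Pt m, dOK (swK p) = cOK (dOK p))) ∧
  (Kl (dR 1 : Pt m → Pt m) c2K ∧ TyH 0 (dR 1 : Pt m → Pt m) ∧ TyH 1 (c2K : Pt m → Pt m) ∧ TyH 1 (fun p : Pt m => dR 1 (c2K p))) ∧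
  ((∀ p : Pt m, c3K (c3K p) = p) ∧ TyH 1 (c3K : Pt m → Pt m)) ∧
  ((∀ p : Pt m, c1K (c1K p) = p) ∧ TyH 1 (c1K : Pt m → Pt m)) ∧
  ((∀ p : Pt m, dMK (dMK p) = p) ∧ TyH 1 (dMK : Pt m → Pt m)) ∧
  (TyH 0 (gaK : Pt m → Pt m) ∧ ∀ p : Pt m, gaK (c2K p) = swK (gaK p))

/-- The target for odd exponents: `((f, l), e)`, the values on the paths `0 → ∞`, `1/2 → ∞`, `1/3 → ∞`. -/
def subOK (m : ℕ) : Submodule ℂ (((Pt m → ℂ) × (Pt m → ℂ)) × (Pt m → ℂ)) where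
  carrier := {F | F.1.1 ∈ inv5 (m := m) ng swK 1 1 ∧ F.1.2 ∈ inv5 (m := m) (dR 0) cOK 1 1 ∧
    F.2 ∈ inv5 (m := m) dOK dOK 1 1 ∧
    ∀ p : Pt m, F.2 p + F.2 (swK p) - F.1.1 p - F.1.2 (dOK p) = 0}
  add_mem' := by
    rintro F F' ⟨h0, h1, h2, h⟩ ⟨h0', h1', h2', h'⟩
    refine ⟨Submodule.add_mem _ h0 h0', Submodule.add_mem _ h1 h1', Submodule.add_mem _ h2 h2',
      fun p => ?_⟩
    have a1 := h p
    have b1 := h' p
    simp only [Prod.fst_add, Prod.snd_add, Pi.add_apply]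
    linear_combination a1 + b1
  zero_mem' := ⟨Submodule.zero_mem _, Submodule.zero_mem _, Submodule.zero_mem _,
    by intro p; simp⟩
  smul_mem' := by
    rintro c F ⟨h0, h1, h2, h⟩
    refine ⟨Submodule.smul_mem _ c h0, Submodule.smul_mem _ c h1, Submodule.smul_mem _ c h2,
      fun p => ?_⟩
    have a1 := h p
    simp only [Prod.smul_fst, Prod.smul_snd, Pi.smul_apply, smul_eq_mul]
    linear_combination c * a1

/-- The value of `{1/2, 2/3}` in terms of `f = {∞, 0}`, `h = {1/3, 1/2}`, `e1 = {∞, 1}`. -/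
def kkK {m : ℕ} (f h e1 : Pt m → ℂ) (p : Pt m) : ℂ :=
  e1 p + e1 (swK p) - f p - h p - h (swK p)

/-- The value of `{∞, 5/2}` in terms of `f`, `h`, `e1` and `e2 = {∞, 2}`. -/
def zzK {m : ℕ} (f h e1 e2 : Pt m → ℂ) (p : Pt m) : ℂ :=
  e2 p + e2 (c2K p) - kkK f h e1 (gaK p)

/-- The target for even exponents: `((f, h), (e1, (M, e2)))`, the values `{∞, 0}`, `{1/3, 1/2}`, `{∞, 1}`, `{1, 4/3}`, `{∞, 2}`. -/
def subEK (m : ℕ) : Submodule ℂ (((Pt m → ℂ) × (Pt m → ℂ)) × ((Pt m → ℂ) × ((Pt m → ℂ) × (Pt m → ℂ)))) where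
  carrier := {F | F.1.1 ∈ inv5 (m := m) ng swK 1 1 ∧ F.1.2 ∈ inv5 (m := m) c3K c3K (-1) (-1) ∧
    F.2.1 ∈ anti5 m ∧ F.2.2.1 ∈ inv5 (m := m) dMK dMK 1 1 ∧ F.2.2.2 ∈ anti5 m ∧
    (∀ p : Pt m, (F.2.1 p + F.2.2.1 p - F.2.2.2 p) +
      (F.2.1 (c1K p) + F.2.2.1 (c1K p) - F.2.2.2 (c1K p)) = 0) ∧
    (∀ p : Pt m, zzK F.1.1 F.1.2 F.2.1 F.2.2.2 p - zzK F.1.1 F.1.2 F.2.1 F.2.2.2 (dR 1 p) = 0)}
  add_mem' := by
    rintro F F' ⟨h0, h1, h2, h3, h4, h5, h6⟩ ⟨h0', h1', h2', h3', h4', h5', h6'⟩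
    refine ⟨Submodule.add_mem _ h0 h0', Submodule.add_mem _ h1 h1', (anti5 m).add_mem h2 h2',
      Submodule.add_mem _ h3 h3', (anti5 m).add_mem h4 h4', fun p => ?_, fun p => ?_⟩
    · have a := h5 p
      have b := h5' p
      simp only [Prod.fst_add, Prod.snd_add, Pi.add_apply]
      linear_combination a + b
    · have a := h6 p
      have b := h6' p
      simp only [zzK, kkK, Prod.fst_add, Prod.snd_add, Pi.add_apply] at a b ⊢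
      linear_combination a + b
  zero_mem' := ⟨Submodule.zero_mem _, Submodule.zero_mem _, (anti5 m).zero_mem,
    Submodule.zero_mem _, (anti5 m).zero_mem, by intro p; simp, by intro p; simp [zzK, kkK]⟩
  smul_mem' := by
    rintro c F ⟨h0, h1, h2, h3, h4, h5, h6⟩
    refine ⟨Submodule.smul_mem _ c h0, Submodule.smul_mem _ c h1, (anti5 m).smul_mem c h2,
      Submodule.smul_mem _ c h3, (anti5 m).smul_mem c h4, fun p => ?_, fun p => ?_⟩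
    · have a := h5 p
      simp only [Prod.smul_fst, Prod.smul_snd, Pi.smul_apply, smul_eq_mul]
      linear_combination c * a
    · have a := h6 p
      simp only [zzK, kkK, Prod.smul_fst, Prod.smul_snd, Pi.smul_apply, smul_eq_mul] at a ⊢
      linear_combination c * a

/-- The content of DIMOK. -/
def HDimOK : Prop := ∀ m : ℕ, 1 ≤ m →
  Module.finrank ℂ (subOK m) = 8 * 25 ^ (m - 1) + 4 * 5 ^ (m - 1)

/-- DIMOK (from TYPK, DIMKH, SPLIT). `a = 25^(m-1)`, `b = 5^(m-1)`. `Vf = inv5 ng swK 1 1`, `Vl = inv5 (dR 0) cOK 1 1` have dimension `4a + 2b` (types `0, 1, 1`), `Ve = inv5 dOK dOK 1 1` and `VW = inv5 swK swK 1 1` have `8a + 2b` (second part of `HDimK`). The map `((f, l), e) ↦ e + e∘swK - f - l∘dOK` from `(Vf × Vl) × Ve` to `VW`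
(`l∘dOK∘swK = l∘cOK∘dOK = l∘dOK`) is onto: for `φ` in `VW` let (SPLIT, `μ = 0`) `φ/2 = f0 + l0`, `f0` invariant under `ng`, `l0` under `dR 0`; take `f = -(f0 + f0∘swK)`, `e = l0 + l0∘dOK`, `l = l0 + l0∘cOK` (`ng` commutes with `swK`, `dR 0` with `cOK`): `e + e∘swK - l∘dOK = l0 + l0∘swK + l0∘dOK + l0∘dOK∘swK - l0∘dOK - l0∘cOK∘dOK = l0 + l0∘swK`,
so the image is `(1 + swK)(f0 + l0) = (φ + φ∘swK)/2 = φ`. The kernel is `subOK m`: `(4a+2b) + (4a+2b) + (8a+2b) - (8a+2b)`. Model: `Pool/Agent/Helper7/TH7/M_DIMOH7.lean`, `Pool/Agent/Helper75/TH/M_DIMOH.lean`. -/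
def StHDimOK : Prop := HTypK → HDimK → S5Split → HDimOK

/-- The content of DIMEK. -/
def HDimEK : Prop := ∀ m : ℕ, 1 ≤ m → Module.finrank ℂ (subEK m) = 40 * 25 ^ (m - 1)

/-- DIMEK (from TYPK, DIMKH, DIMK, SPLIT). `V = anti5 m` has dimension `16 a` (first part of `S5DimK`), `Vf = inv5 ng swK 1 1` has `4a + 2b`, `Vh = inv5 c3K c3K (-1) (-1)` has `8a - 2b`, `VM = inv5 dMK dMK 1 1` and `V1 = inv5 c1K c1K 1 1` have `8a + 2b`, `V3 = inv5 (dR 1) c2K (-1) 1` has `4a` (types `0, 1, 1`: `0 + 1 - 1`). The map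
`((f, h), (e1, (M, e2))) ↦ (w + w∘c1K, z - z∘dR 1)`, `w = e1 + M - e2`, `z = zzK f h e1 e2`, from `(Vf × Vh) × (V × (VM × V))` to `V1 × V3` (`kkK f h e1` is invariant under `swK` (`f∘swK = f`), so `z∘c2K = z` by `gaK∘c2K = swK∘gaK`; `c2K` commutes with `dR 1`; composition with `gaK` preserves `anti5 m`, type `0`) is onto: given `(φ, ψ)` let
(SPLIT, `μ = 1`) `φ/2 + ψ/4 = f0 + l0`, `f0` invariant under `ng`, `l0` under `dR 1`; take `e1 = f0`, `f = f0 + f0∘swK`, `h = M = 0`, `e2 = ψ/4 - l0`. Then `kkK = 0`, `w = f0 + l0 - ψ/4 = φ/2`, `w + w∘c1K = φ`; `z = e2 + e2∘c2K`, and `z - z∘dR 1 = ψ` (`ψ∘c2K = ψ`, `ψ∘dR 1 = -ψ`; `l0 + l0∘c2K` is invariant under `dR 1`). The kernel is `subEK m`: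
`(4a+2b) + (8a-2b) + 16a + (8a+2b) + 16a - (8a+2b) - 4a = 40a`. Model: `Pool/Agent/Helper3/TH/M_DIMEH.lean`, `Pool/Agent/Helper53/TH7/M_DIMEH7.lean`. -/
def StHDimEK : Prop := HTypK → HDimK → S5DimK → S5Split → HDimEK

/-! ### Representatives -/

/-- Thirty representatives with bottom row `≡ ±(0, 1)` modulo `3` (of the classes of `SL₂(ℤ)` modulo `(* 5*; 15* *)`). -/
def LK01 : List (ℤ × ℤ × ℤ × ℤ) :=
  [(-2, 1, 3, -2), (-1, 0, 3, -1), (2, 1, 3, 2), (2, -1, 3, -1), (-1, -1, 3, 2), (4, -3, 3, -2), (1, 0, 6, 1),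
   (2, 3, 3, 5), (-1, 2, 0, -1), (-1, -2, 3, 5), (-5, 8, 3, -5), (5, 3, 3, 2), (1, -1, 3, -2), (5, -2, 3, -1),
   (-5, 3, 3, -2), (-2, -1, 3, 1), (-1, 0, 6, -1), (-1, -1, 0, -1), (-4, -3, 3, 2), (-1, 0, 0, -1), (1, -2, 3, -5),
   (2, -3, 3, -4), (-2, -3, 3, 4), (-1, -2, 0, -1), (-1, 1, 3, -4), (-2, 3, 3, -5), (1, 0, 3, 1), (-5, -2, 3, 1),
   (-1, 1, 0, -1), (-4, 1, 3, -1)]

/-- Thirty representatives with bottom row `≡ ±(1, 0)` modulo `3`. -/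
def LK10 : List (ℤ × ℤ × ℤ × ℤ) :=
  [(-1, -4, 1, 3), (3, -2, 5, -3), (0, -1, 1, -3), (-2, 1, 5, -3), (-1, 1, 2, -3), (2, 5, 1, 3), (-1, 2, 1, -3),
   (1, -1, 1, 0), (1, 2, 1, 3), (0, -1, 1, -6), (-1, -1, 4, 3), (0, -1, 1, 6), (3, -5, 2, -3), (-2, -1, 1, 0),
   (1, 1, 2, 3), (-1, -2, 2, 3), (1, -2, 2, -3), (-3, 2, 4, -3), (3, 4, 2, 3), (-3, 4, 2, -3), (0, -1, 1, 3),
   (-8, -5, 5, 3), (-3, -5, 2, 3), (0, -1, 1, 0), (2, 1, 5, 3), (2, -1, 1, 0), (-1, -1, 1, 0), (-3, -2, 5, 3),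
   (-2, 5, 1, -3), (3, 2, 4, 3)]

/-- Thirty representatives with bottom row `≡ ±(1, 1)` modulo `3`. -/
def LK11 : List (ℤ × ℤ × ℤ × ℤ) :=
  [(0, -1, 1, -2), (-5, 2, 2, -1), (1, 0, 4, 1), (-1, 1, 1, -2), (0, -1, 1, -5), (1, 2, 2, 5), (-1, -2, 1, 1),
   (1, -1, 5, -4), (0, -1, 1, 1), (-2, 3, 1, -2), (3, -2, 2, -1), (1, -3, 1, -2), (-2, -1, 5, 2), (-1, -3, 2, 5),
   (-3, 1, 2, -1), (2, 1, 1, 1), (1, 0, 1, 1), (-7, -2, 4, 1), (-1, 1, 4, -5), (2, -5, 1, -2), (8, 3, 5, 2),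
   (-2, -3, 1, 1), (-3, -8, 2, 5), (0, -1, 1, 4), (3, 1, 5, 2), (-1, 0, 5, -1), (1, 3, 1, 4), (1, -1, 2, -1),
   (-3, -1, 4, 1), (-1, 0, 2, -1)]

/-- Thirty representatives with bottom row `≡ ±(1, 2)` modulo `3`. -/
def LK12 : List (ℤ × ℤ × ℤ × ℤ) :=
  [(-1, 0, 4, -1), (1, -2, 1, -1), (3, -1, 4, -1), (1, -3, 2, -5), (-1, -1, 5, 4), (0, -1, 1, -4), (2, 3, 1, 2),
   (-2, 1, 1, -1), (0, -1, 1, 2), (-1, -1, 2, 1), (5, 2, 2, 1), (-1, 3, 1, -4), (-1, 0, 1, -1), (-3, 1, 5, -2),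
   (-1, -3, 1, 2), (3, -8, 2, -5), (1, 1, 4, 5), (-2, 7, 1, -4), (1, 0, 5, 1), (1, 0, 2, 1), (3, 1, 2, 1),
   (-2, -5, 1, 2), (0, -1, 1, 5), (-3, -2, 2, 1), (-8, 3, 5, -2), (-3, 2, 1, -1), (0, -1, 1, -1), (-1, 2, 2, -5),
   (1, 1, 1, 2), (2, -1, 5, -2)]

/-- The twenty-four representatives of `Γ₀(15) \ SL₂(ℤ)`. -/
def LKO : List (ℤ × ℤ × ℤ × ℤ) :=
  [(1, 0, 3, 1), (-1, -2, 3, 5), (-1, 0, 3, -1), (-1, -1, 3, 2), (1, -1, 3, -2), (-1, 0, 0, -1), (-1, 1, 2, -3),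
   (0, -1, 1, 0), (1, 1, 2, 3), (-2, 1, 5, -3), (0, -1, 1, 3), (0, -1, 1, -3), (-2, -1, 5, 2), (-1, 0, 2, -1),
   (0, -1, 1, 4), (0, -1, 1, -2), (1, 2, 2, 5), (0, -1, 1, 1), (-1, 0, 4, -1), (0, -1, 1, 2), (-1, 2, 2, -5),
   (2, -1, 5, -2), (1, 0, 2, 1), (-1, 0, 1, -1)]

/-- The content of E1AK. -/
def HE1aK : Prop := ∀ (k : ℕ) (G : ℤ → ℤ → ℂ), 2 ≤ k → BalEK k G →
  (((fun p : Pt (k - 1) => edgeK 1 1 0 0 1 G p.1 p.2), (fun p : Pt (k - 1) => edgeK 1 1 3 1 2 G p.1 p.2)),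
    ((fun p : Pt (k - 1) => edgeK 1 1 0 1 1 G p.1 p.2), ((fun p : Pt (k - 1) => edgeK 1 1 1 4 3 G p.1 p.2),
      (fun p : Pt (k - 1) => edgeK 1 1 0 2 1 G p.1 p.2)))) ∈ subEK (k - 1)

/-- E1AK (from EDGK, PLAK). Even exponent, `m = k - 1`, `μ = 1`, `{u, v} = G(gu) - G(gv)`: `f = {∞, 0}`, `h = {1/3, 1/2}`, `e1 = {∞, 1}`, `M = {1, 4/3}`, `e2 = {∞, 2}`. (i) `anti5`: `(1 i5^(k-1); 0 1) g` has coordinates `(x + i 5^(k-2), y)`, `(1 0; 3i5^(k-1) 1) g` has `(x, y + 3i 5^(k-2))` for standard `g` (`i ↦ 3i` is a bijection modulo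
`5`). (ii) By the rule at the head of this file: `f(ng p) = f(p)`, `f(swK p) = -{0, ∞} = f(p)`; `h(c3K p) = -h(p)` (`(5 -2; 12 -5)` fixes `1/3` and `1/2`); `M(dMK p) = -{4/3, 1} = M(p)`. (iii) `w = e1 + M - e2 = {2, 4/3}` and `(5 -8; 3 -5)` fixes `2` and `4/3`: `w(c1K p) = -w(p)`. (iv) Hexagon `∞, 0, 1/3, 1/2, 2/3, 1`: `e1(swK p) = -{0, 1/3}`,
`h(swK p) = -{1, 2/3}`, so `kkK p = {∞,1} + {1/3,0} - {∞,0} - {1/3,1/2} + {1,2/3} = {1/2, 2/3}` (as `{u,v} + {v,w} = {u,w}`); `kkK (gaK p) = {7/3, 2}` (`(33 -20; 15 -9)`), `e2(c2K p) = -{5/2, 7/3}` (`(15 -37; 6 -15)` exchanges `∞` and `5/2`, `2` and `7/3`), so `zzK p = {∞,2} + {7/3,5/2} - {7/3,2} = {∞, 5/2}`, and `dR 1` (`(-1 5; 0 1)`) fixes `∞`, `5/2`.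
Model: E1AH of TH, `Pool/Agent/Helper11/TH/M_E1AH.lean` (and `Pool/Agent/Helper69/TH7/M_E1AH7.lean`). -/
def StHE1aK : Prop := HEdgK → HPlAK → HTypK → HE1aK

/-- The content of E1BK. -/
def HE1bK : Prop := ∀ (k : ℕ) (G : ℤ → ℤ → ℂ), 2 ≤ k → BalEK k G →
  (∀ x y : ZMod (5 ^ (k - 1)), (edgeK 1 1 0 0 1 G x y = 0 ∧ edgeK 1 1 3 1 2 G x y = 0) ∧
    edgeK 1 1 0 1 1 G x y = 0 ∧ edgeK 1 1 1 4 3 G x y = 0 ∧ edgeK 1 1 0 2 1 G x y = 0) → EqC G 0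

/-- E1BK (from EDGK, PLAK, FAR). `~` as in E1BH of TH (`Pool/Agent/Helper74/TH/M_E1BH.lean`), invariant under `(a 5b; 5c d)` of type `KTy`, `*`, `b = (0 1; 3 0)` (a product of two matrices of determinant three is three times a matrix of determinant one). Given: `∞ ~ 0`, `1/3 ~ 1/2`, `∞ ~ 1`, `1 ~ 4/3`, `∞ ~ 2`. Then (apply the word, then the matrix to a known
equivalence; with `*` also for the negatives): `∞ ~ 1/3` (`0 ~ 1` by `b`), so `∞ ~ 1/2`; `∞ ~ 2/3` (`0 ~ 1/2` by `b`); `∞ ~ 1/6` (`0 ~ 2` by `b`); `∞ ~ 1/4` (`0 ~ 4/3` by `b`); `∞ ~ -3` (`∞ ~ 2` by `(1 -5; 0 1)`); `2/3 ~ 3/4` (`1/2 ~ 2/3` by `(12 -5; 15 -6)`); `1/3 ~ 2/5` (`1 ~ ∞` by `(-6 5; -15 12)`); `4/3 ~ 8/5` (`1/4 ~ ∞` by `(-24 5; -15 3)`); `8/5 ~ 5/3` (`∞ ~ 0` by `(-24 5; -15 3)`); `0 ~ 1/5` (`∞ ~ 5/3` by `b`); `-5/3 ~ -3/2` (`-2/5 ~ -1/3` by `b`, `(23 20; -15 -13)`); `5/3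 ~ 7/4` (`∞ ~ 3` by `b`, `(-24 5; -15 3)`); `2/3 ~ 3/5` (`2 ~ ∞` by `(-9 20; -15 33)`); `2 ~ 5/2` (`1/2 ~ 3/5` by `b`, `(-33 20; -15 9)`). With `*`: `∞, 0`, `±1, ±1/2, ±2, ±3, ±1/3, ±3/2, ±2/3, ±3/4, ±4/3, ±1/4, ±2/5, ±5/3, ±1/5, ±3/5, ±5/2, ±1/6, ±7/4, ±8/5` are equivalent: both cusps of every matrix in `LK01`, `LK10`, `LK11`, `LK12`. Every matrix of `SL₂(ℤ)` is `g' ρ`, `g' = (a 5b; 15c d)`
of determinant one, `ρ` in the list of the class of its bottom row modulo `3` up to sign (`decide` on `ZMod 5` for each list: `5 ∣ q r1 - p r2`, `5 ∣ r r4 - s r3`). FAR. -/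
def StHE1bK : Prop := HEdgK → HPlAK → StFar → HE1bK

/-- The content of O1K. -/
def HO1K : Prop := ∀ (k : ℕ) (G : ℤ → ℤ → ℂ), 1 ≤ k → BalOK k G →
  ((((fun p : Pt k => edgeK 0 1 0 0 1 G p.1 p.2), (fun p : Pt k => edgeK 0 1 0 1 2 G p.1 p.2)),
    (fun p : Pt k => edgeK 0 1 0 1 3 G p.1 p.2)) ∈ subOK k) ∧
  ((∀ x y : ZMod (5 ^ k), edgeK 0 1 0 0 1 G x y = 0 ∧ edgeK 0 1 0 1 2 G x y = 0 ∧
    edgeK 0 1 0 1 3 G x y = 0) → EqC G 0)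

/-- O1K (from EDGK, PLAK, FAR). Odd exponent, `m = k`, `μ = 0`, `b = (0 1; 15 0)`: `f = {∞, 0}`, `l = {∞, 1/2}`, `e = {∞, 1/3}`. `f(ng p) = f(p)`, `f(swK p) = f(p)`; `l(dR 0 p) = l(p)`, `l(cOK p) = -{1/2, ∞} = l(p)` (`(15 -7; 30 -15)`); `e(dOK p) = -{1/3, ∞} = e(p)` (`(5 -2; 15 -5)`). Square `∞, 0, 1/5, 1/3`: `e(swK p) = -{0, 1/5}`,
`l(dOK p) = -{1/3, 1/5}` (`(5 -2; 15 -5)` maps `∞` to `1/3`, `1/2` to `1/5`): `e(p) + e(swK p) - f(p) - l(dOK p) = {∞,1/3} - {0,1/5} - {∞,0} + {1/3,1/5} = 0`. Injectivity (`~` as in E1BK for `(a b; 5c d)` of type `KTy`): given `∞ ~ 0`, `∞ ~ 1/2`, `∞ ~ 1/3`; `∞ ~ -1` (`∞ ~ 0` by `(1 -1; 0 1)`); `-1/3 ~ -1/4` (`1/3 ~ 0` by `(-4 1; 15 -4)`);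
`-1/3 ~ -2/5` (`0 ~ ∞` by `(-6 1; 15 -3)`); with `*`: `∞, 0, ±1, ±1/2, ±1/3, ±1/4, ±2/5` are equivalent: both cusps of every matrix in `LKO`; every matrix of `SL₂(ℤ)` is `g' ρ` with `g'` in `Γ₀(15)` and `ρ` in `LKO` (bottom rows modulo `15` up to units; `decide` on `ZMod 5` and `ZMod 3` separately if `ZMod 15` is too slow). FAR.
Model: `Pool/Agent/Helper46/TH/M_O1H.lean`, `Pool/Agent/Helper3/TH7/M_O1H7.lean`. -/
def StHO1K : Prop := HEdgK → HPlAK → HTypK → StFar → HO1K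

/-- UBHK. For `n = 2k ≥ 4` the map to the five functions in `subEK (k-1)`, of dimension `40·25^(k-2) = ddK5 n`; for `n = 2k+1 ≥ 3` the map to the three functions in `subOK k`, of dimension `ddK5 n`. Model: UBH of TH, `Pool/Agent/Helper80/TH/M_UBH.lean`, `Pool/Agent/Helper33/TH7/M_UBH7.lean`. -/
def StHUBK : Prop := HBalK → HE1aK → HE1bK → HO1K → HDimEK → HDimOK → UBK 5 ddK5

end Pool.Agent.Helper76.TK5
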